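import Pool.Agent.H758R2.Besov.Neg

/-!
# MP_d3a69a_an: `2`-absolutely summing Hankel operators on `B_1^α`

For `α ≥ 1` every Hankel operator `H_φ : B_1^α → B_∞^{-α}` with `φ ∈ B_∞^{-α}` is `2`-absolutely
summing if and only if `α > 1`.
-/

set_option autoImplicit false

open Pool.Agent.H758R2.Besov

/-- For `α ≥ 1` and any integer `n > α` (used to define the norm of `B_1^α`): for every
`φ ∈ B_∞^{-α}` there is exactly one bounded operator `H_φ : B_1^α → B_∞^{-α}` whose coefficients
are the (Abel) sums `∑_k φ̂(m + k) x̂(k)`; and all the operators `H_φ` are `2`-absolutely summing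
if and only if `α > 1`. -/
theorem Pool.Agent.Results.MP_d3a69a_an.TwoSummingHankel.result (α : ℝ) (hα : 1 ≤ α) (n : ℕ)
    (hn : α < n) :
    (∀ φ : Binf α, ∃! H : B1 α n →L[ℂ] Binf α, IsHankel φ H) ∧
      ((∀ (φ : Binf α) (H : B1 α n →L[ℂ] Binf α), IsHankel φ H → TwoSumming H) ↔ 1 < α) := by
  refine ⟨fun φ => exists_unique_hankel hα hn φ, ?_, ?_⟩
  · intro h
    rcases hα.eq_or_lt with h1 | h1
    · exfalso
      subst h1
      have hn2 : 1 < n := by exact_mod_cast hn
      obtain ⟨ν, rfl⟩ : ∃ ν, n = ν + 2 := ⟨n - 2, by omega⟩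
      obtain ⟨H, hH, _⟩ := exists_unique_hankel le_rfl hn Phi
      exact not_twoSumming hH (h Phi H hH)
    · exact h1
  · intro h φ H hH
    exact twoSumming_of_one_lt h hn φ H hH
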